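import Mathlib

/-!
Operator ranges invariant under a representation of a C*-algebra: the elementary part.
-/

set_option autoImplicit false
set_option linter.deprecated false
set_option linter.unusedSectionVars false

noncomputable section

namespace Pool.Agent.TH253.KR

open ContinuousLinearMap Filter Topology

/-- Douglas' lemma: `‖B₁* x‖ ≤ c ‖B₂* x‖` for all `x` gives `range B₁ ⊆ range B₂`. -/
theorem range_sub {H K₁ K₂ : Type} [NormedAddCommGroup H] [InnerProductSpace ℂ H] [CompleteSpace H]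
    [NormedAddCommGroup K₁] [InnerProductSpace ℂ K₁] [CompleteSpace K₁]
    [NormedAddCommGroup K₂] [InnerProductSpace ℂ K₂] [CompleteSpace K₂]
    (B₁ : K₁ →L[ℂ] H) (B₂ : K₂ →L[ℂ] H) (c : ℝ)
    (h : ∀ x, ‖adjoint B₁ x‖ ≤ c * ‖adjoint B₂ x‖) (z : K₁) : ∃ w : K₂, B₂ w = B₁ z := by
  let g : H →ₗ[ℂ] K₂ := (adjoint B₂).toLinearMap
  let f : H →ₗ[ℂ] ℂ := (innerSL ℂ z ∘L adjoint B₁).toLinearMap
  have hfg : ∀ x, ‖f x‖ ≤ ‖z‖ * c * ‖g x‖ := by
    intro x
    have h0 : ‖inner ℂ z (adjoint B₁ x)‖ ≤ ‖z‖ * ‖adjoint B₁ x‖ := norm_inner_le_norm z _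
    calc ‖f x‖ ≤ ‖z‖ * ‖adjoint B₁ x‖ := h0
      _ ≤ ‖z‖ * (c * ‖adjoint B₂ x‖) := mul_le_mul_of_nonneg_left (h x) (norm_nonneg _)
      _ = ‖z‖ * c * ‖g x‖ := by rw [← mul_assoc]; rfl
  have hker : LinearMap.ker g ≤ LinearMap.ker f := by
    intro x hx
    rw [LinearMap.mem_ker] at hx ⊢
    have h1 := hfg x
    rw [hx, norm_zero, mul_zero] at h1
    exact norm_le_zero_iff.1 h1
  let φ : LinearMap.range g →ₗ[ℂ] ℂ :=
    (LinearMap.ker g).liftQ f hker ∘ₗ g.quotKerEquivRange.symm.toLinearMap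
  have hφ : ∀ x, φ ⟨g x, LinearMap.mem_range_self g x⟩ = f x := by
    intro x
    have h2 : g.quotKerEquivRange.symm ⟨g x, LinearMap.mem_range_self g x⟩
        = (LinearMap.ker g).mkQ x := by
      rw [LinearEquiv.symm_apply_eq]
      apply Subtype.ext
      rfl
    show (LinearMap.ker g).liftQ f hker
      (g.quotKerEquivRange.symm ⟨g x, LinearMap.mem_range_self g x⟩) = f x
    rw [h2]
    rfl
  have hφb : ∀ v, ‖φ v‖ ≤ ‖z‖ * c * ‖v‖ := by
    rintro ⟨_, x, rfl⟩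
    rw [hφ]
    exact hfg x
  obtain ⟨F, hF, -⟩ := exists_extension_norm_eq (LinearMap.range g) (φ.mkContinuous _ hφb)
  obtain ⟨w, hw⟩ := (InnerProductSpace.toDual ℂ K₂).surjective F
  refine ⟨w, ?_⟩
  refine ext_inner_right ℂ fun x => ?_
  have h1 : F (g x) = f x := by
    have h3 := hF ⟨g x, LinearMap.mem_range_self g x⟩
    rw [LinearMap.mkContinuous_apply, hφ] at h3
    exact h3
  have h2 : F (g x) = inner ℂ w (g x) := by
    rw [← hw]
    rfl
  rw [← adjoint_inner_right, ← adjoint_inner_right]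
  exact h2.symm.trans h1

section

variable {A : Type} [CStarAlgebra A] {H K : Type}
  [NormedAddCommGroup H] [InnerProductSpace ℂ H] [CompleteSpace H]
  [NormedAddCommGroup K] [InnerProductSpace ℂ K] [CompleteSpace K]

/-- The homomorphism induced on the domain of an injective operator with invariant range. -/
theorem exists_hom (π : A →ₐ[ℂ] (H →L[ℂ] H)) (b : ℝ) (hb : ∀ a, ‖π a‖ ≤ b * ‖a‖)
    (T : K →L[ℂ] H) (hT : Function.Injective T)
    (hinv : ∀ (a : A) (x : K), ∃ y : K, π a (T x) = T y) :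
    ∃ u : A →ₐ[ℂ] (K →L[ℂ] K), (∀ a x, T (u a x) = π a (T x)) ∧
      ∃ c : ℝ, 1 ≤ c ∧ ∀ a, ‖u a‖ ≤ c * ‖a‖ := by
  choose y hy using hinv
  let ul : A → K →ₗ[ℂ] K := fun a =>
    { toFun := y a
      map_add' := fun p q => hT (by rw [map_add, ← hy, ← hy, ← hy, map_add, map_add])
      map_smul' := fun r q => hT (by
        rw [RingHom.id_apply, map_smul, ← hy, ← hy, map_smul, map_smul]) }
  have hul : ∀ a x, T (ul a x) = π a (T x) := fun a x => (hy a x).symm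
  have hcont : ∀ a, Continuous (ul a) := by
    intro a
    refine (ul a).continuous_of_seq_closed_graph fun s x v hs hv => hT ?_
    have h1 : Tendsto (fun n => T (ul a (s n))) atTop (𝓝 (T v)) :=
      (T.continuous.tendsto v).comp hv
    have h2 : Tendsto (fun n => π a (T (s n))) atTop (𝓝 (π a (T x))) :=
      ((π a).continuous.tendsto _).comp ((T.continuous.tendsto x).comp hs)
    have h3 : (fun n => T (ul a (s n))) = fun n => π a (T (s n)) := funext fun n => hul a _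
    rw [h3] at h1
    rw [hul]
    exact tendsto_nhds_unique h1 h2
  let uc : A → K →L[ℂ] K := fun a => ⟨ul a, hcont a⟩
  have huc : ∀ a x, T (uc a x) = π a (T x) := hul
  have ext' : ∀ (p q : K →L[ℂ] K), (∀ x, T (p x) = T (q x)) → p = q := fun p q h =>
    ContinuousLinearMap.ext fun x => hT (h x)
  let um : A →ₗ[ℂ] (K →L[ℂ] K) :=
    { toFun := uc
      map_add' := fun p q => ext' _ _ fun x => by
        rw [huc, map_add, ContinuousLinearMap.add_apply, ContinuousLinearMap.add_apply, map_add,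
          huc, huc]
      map_smul' := fun r q => ext' _ _ fun x => by
        rw [huc, map_smul, RingHom.id_apply, ContinuousLinearMap.smul_apply,
          ContinuousLinearMap.smul_apply, map_smul, huc] }
  let u : A →ₐ[ℂ] (K →L[ℂ] K) := AlgHom.ofLinearMap um
    (ext' _ _ fun x => by
      show T (uc 1 x) = _
      rw [huc, map_one, ContinuousLinearMap.one_apply, ContinuousLinearMap.one_apply])
    (fun p q => ext' _ _ fun x => by
      show T (uc (p * q) x) = T (uc p (uc q x))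
      rw [huc, huc, huc, map_mul, ContinuousLinearMap.mul_apply])
  have hu : ∀ a x, T (u a x) = π a (T x) := huc
  refine ⟨u, hu, ?_⟩
  have hc : Continuous um := by
    refine um.continuous_of_seq_closed_graph fun s x v hs hv => ?_
    refine ext' _ _ fun z => ?_
    have h1 : Tendsto (fun n => T ((um (s n)) z)) atTop (𝓝 (T (v z))) := by
      refine (T.continuous.tendsto _).comp ?_
      exact ((ContinuousLinearMap.apply ℂ K z).continuous.tendsto v).comp hv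
    have hπc : Tendsto (fun n => π (s n)) atTop (𝓝 (π x)) := by
      have h0 : Continuous (π.toLinearMap.mkContinuous b hb) :=
        (π.toLinearMap.mkContinuous b hb).continuous
      exact (h0.tendsto x).comp hs
    have h2 : Tendsto (fun n => (π (s n)) (T z)) atTop (𝓝 ((π x) (T z))) :=
      ((ContinuousLinearMap.apply ℂ H (T z)).continuous.tendsto (π x)).comp hπc
    have h3 : (fun n => T ((um (s n)) z)) = fun n => (π (s n)) (T z) :=
      funext fun n => huc (s n) z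
    rw [h3] at h1
    have h4 : T ((um x) z) = (π x) (T z) := huc x z
    rw [h4]
    exact tendsto_nhds_unique h1 h2
  let U : A →L[ℂ] (K →L[ℂ] K) := ⟨um, hc⟩
  refine ⟨max 1 ‖U‖, le_max_left _ _, fun a => ?_⟩
  calc ‖u a‖ = ‖U a‖ := rfl
    _ ≤ ‖U‖ * ‖a‖ := U.le_opNorm a
    _ ≤ max 1 ‖U‖ * ‖a‖ := mul_le_mul_of_nonneg_right (le_max_right _ _) (norm_nonneg _)

/-- From a similarity of the induced homomorphism to a positive operator in the commutant. -/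
theorem of_similar (π : A →ₐ[ℂ] (H →L[ℂ] H)) (hs : ∀ a, π (star a) = star (π a))
    (T : K →L[ℂ] H) (u : A →ₐ[ℂ] (K →L[ℂ] K)) (hu : ∀ a x, T (u a x) = π a (T x))
    (ξ : (K →L[ℂ] K)ˣ)
    (hξ : ∀ a : A, (ξ : K →L[ℂ] K) * u (star a) * ((ξ⁻¹ : (K →L[ℂ] K)ˣ) : K →L[ℂ] K)
        = star ((ξ : K →L[ℂ] K) * u a * ((ξ⁻¹ : (K →L[ℂ] K)ˣ) : K →L[ℂ] K)))
    (C : ℝ) (h1 : ‖(ξ : K →L[ℂ] K)‖ ^ 2 ≤ C)
    (h2 : ‖((ξ⁻¹ : (K →L[ℂ] K)ˣ) : K →L[ℂ] K)‖ ^ 2 ≤ C) :
    ∃ S : H →L[ℂ] H, S.IsPositive ∧ (∀ a, π a * S = S * π a) ∧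
      (∀ z : H, (∃ w, S w = z) ↔ ∃ w, T w = z) ∧
      (∀ x, ‖S x‖ ^ 2 ≤ C * ‖adjoint T x‖ ^ 2) ∧ ∀ x, ‖adjoint T x‖ ^ 2 ≤ C * ‖S x‖ ^ 2 := by
  set X : K →L[ℂ] K := (ξ : K →L[ℂ] K) with hX
  set Y : K →L[ℂ] K := ((ξ⁻¹ : (K →L[ℂ] K)ˣ) : K →L[ℂ] K) with hY
  have hXY : X * Y = 1 := ξ.mul_inv
  have hYX : Y * X = 1 := ξ.inv_mul
  have hXY' : ∀ x, X (Y x) = x := fun x => by
    have := DFunLike.congr_fun hXY x
    simpa using this
  have hYX' : ∀ x, Y (X x) = x := fun x => by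
    have := DFunLike.congr_fun hYX x
    simpa using this
  let R : K →L[ℂ] H := T ∘L Y
  let ρ : A → K →L[ℂ] K := fun a => X * u a * Y
  have hρ : ∀ a, ρ (star a) = star (ρ a) := hξ
  have hR : ∀ a, R ∘L ρ a = π a ∘L R := by
    intro a
    ext x
    show T (Y (X (u a (Y x)))) = π a (T (Y x))
    rw [hYX', hu]
  let P : H →L[ℂ] H := R ∘L adjoint R
  have hPn : P.IsPositive := by
    have := ContinuousLinearMap.isPositive_self_comp_adjoint R
    exact this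
  have hstar : ∀ a, adjoint R ∘L π a = ρ a ∘L adjoint R := by
    intro a
    have h3 : adjoint (R ∘L ρ (star a)) = adjoint (π (star a) ∘L R) :=
      congrArg adjoint (hR (star a))
    have e1 : adjoint (R ∘L ρ (star a)) = adjoint (ρ (star a)) ∘L adjoint R := adjoint_comp _ _
    have e2 : adjoint (π (star a) ∘L R) = adjoint R ∘L adjoint (π (star a)) := adjoint_comp _ _
    have h4 : adjoint (ρ (star a)) = ρ a := by
      rw [hρ, ContinuousLinearMap.star_eq_adjoint, adjoint_adjoint]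
    have h5 : adjoint (π (star a)) = π a := by
      rw [hs, ContinuousLinearMap.star_eq_adjoint, adjoint_adjoint]
    rw [e1, e2, h4, h5] at h3
    exact h3.symm
  have hPc : ∀ a, P * π a = π a * P := by
    intro a
    show (R ∘L adjoint R) ∘L π a = π a ∘L (R ∘L adjoint R)
    rw [ContinuousLinearMap.comp_assoc, hstar, ← ContinuousLinearMap.comp_assoc, hR,
      ContinuousLinearMap.comp_assoc]
  have hP0 : 0 ≤ P := (ContinuousLinearMap.nonneg_iff_isPositive P).2 hPn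
  let S : H →L[ℂ] H := CFC.sqrt P
  have hS0 : 0 ≤ S := CFC.sqrt_nonneg P
  have hSp : S.IsPositive := (ContinuousLinearMap.nonneg_iff_isPositive S).1 hS0
  have hSS : S * S = P := CFC.sqrt_mul_sqrt_self P hP0
  have hSa : adjoint S = S := hSp.isSelfAdjoint.adjoint_eq
  have hSn : ∀ x, ‖S x‖ = ‖adjoint R x‖ := by
    intro x
    have e1 : inner ℂ (S x) (S x) = inner ℂ (adjoint R x) (adjoint R x) := by
      have e2 : inner ℂ (S x) (S x) = inner ℂ x (S (S x)) := by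
        conv_lhs => rw [← hSa]
        rw [adjoint_inner_left]
        rw [hSa]
      have e3 : S (S x) = R (adjoint R x) := DFunLike.congr_fun hSS x
      rw [e2, e3, adjoint_inner_left]
    rw [inner_self_eq_norm_sq_to_K, inner_self_eq_norm_sq_to_K] at e1
    have e4 : ‖S x‖ ^ 2 = ‖adjoint R x‖ ^ 2 := by exact_mod_cast e1
    exact (pow_left_inj₀ (norm_nonneg _) (norm_nonneg _) two_ne_zero).1 e4
  have hSc : ∀ a, π a * S = S * π a := by
    intro a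
    have h3 : Commute P (π a) := hPc a
    have h4 : Commute S (π a) := by
      show Commute (CFC.sqrt P) (π a)
      unfold CFC.sqrt
      exact Commute.cfcₙ_nnreal h3 _
    exact h4.symm.eq
  have hRa : ∀ x, adjoint R x = adjoint Y (adjoint T x) := by
    intro x
    show adjoint (T ∘L Y) x = _
    rw [adjoint_comp]
    rfl
  have hTa : ∀ x, adjoint T x = adjoint X (adjoint R x) := by
    intro x
    rw [hRa]
    have h3 : adjoint X ∘L adjoint Y = 1 := by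
      rw [← adjoint_comp]
      have : Y ∘L X = 1 := hYX
      rw [this]
      exact (star_one (K →L[ℂ] K))
    have h4 := DFunLike.congr_fun h3 (adjoint T x)
    exact h4.symm
  refine ⟨S, hSp, hSc, ?_, ?_, ?_⟩
  · intro z
    constructor
    · rintro ⟨w, rfl⟩
      obtain ⟨v, hv⟩ := range_sub S R 1 (fun x => by rw [hSa, hSn, one_mul]) w
      exact ⟨Y v, hv⟩
    · rintro ⟨w, rfl⟩
      obtain ⟨v, hv⟩ := range_sub R S 1 (fun x => by rw [hSa, hSn, one_mul]) (X w)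
      refine ⟨v, ?_⟩
      rw [hv]
      show T (Y (X w)) = T w
      rw [hYX']
  · intro x
    rw [hSn, hRa]
    have h3 : ‖adjoint Y (adjoint T x)‖ ≤ ‖Y‖ * ‖adjoint T x‖ := by
      have := (adjoint Y).le_opNorm (adjoint T x)
      rwa [LinearIsometryEquiv.norm_map] at this
    calc ‖adjoint Y (adjoint T x)‖ ^ 2 ≤ (‖Y‖ * ‖adjoint T x‖) ^ 2 :=
          pow_le_pow_left₀ (norm_nonneg _) h3 2
      _ = ‖Y‖ ^ 2 * ‖adjoint T x‖ ^ 2 := mul_pow _ _ _
      _ ≤ C * ‖adjoint T x‖ ^ 2 := mul_le_mul_of_nonneg_right h2 (by positivity)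
  · intro x
    rw [hSn]
    have h3 : ‖adjoint T x‖ ≤ ‖X‖ * ‖adjoint R x‖ := by
      rw [hTa]
      have := (adjoint X).le_opNorm (adjoint R x)
      rwa [LinearIsometryEquiv.norm_map] at this
    calc ‖adjoint T x‖ ^ 2 ≤ (‖X‖ * ‖adjoint R x‖) ^ 2 :=
          pow_le_pow_left₀ (norm_nonneg _) h3 2
      _ = ‖X‖ ^ 2 * ‖adjoint R x‖ ^ 2 := mul_pow _ _ _
      _ ≤ C * ‖adjoint R x‖ ^ 2 := mul_le_mul_of_nonneg_right h1 (by positivity)

/-- Every value of `T` is attained on the orthogonal complement of the kernel. -/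
theorem perp (T : K →L[ℂ] H) (x : K) :
    ∃ v : (LinearMap.ker (T : K →ₗ[ℂ] H))ᗮ, T v = T x ∧ ‖v‖ ≤ ‖x‖ := by
  have _ : CompleteSpace (LinearMap.ker (T : K →ₗ[ℂ] H)) := T.isClosed_ker.completeSpace_coe
  obtain ⟨y, hy, z, hz, h⟩ :=
    Submodule.exists_add_mem_mem_orthogonal (K := LinearMap.ker (T : K →ₗ[ℂ] H)) x
  refine ⟨⟨z, hz⟩, ?_, ?_⟩
  · have h1 : T y = 0 := hy
    show T z = T x
    rw [h, map_add, h1, zero_add]
  · show ‖z‖ ≤ ‖x‖
    have h1 : inner ℂ z x = inner ℂ z z := by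
      rw [h, inner_add_right, Submodule.inner_left_of_mem_orthogonal hy hz, zero_add]
    have h2 : ‖z‖ ^ 2 ≤ ‖z‖ * ‖x‖ := by
      have h3 : ‖inner ℂ z x‖ ≤ ‖z‖ * ‖x‖ := norm_inner_le_norm z x
      rw [h1, inner_self_eq_norm_sq_to_K] at h3
      simpa using h3
    by_cases h0 : ‖z‖ = 0
    · rw [h0]
      exact norm_nonneg _
    · have h4 : 0 < ‖z‖ := lt_of_le_of_ne (norm_nonneg _) (Ne.symm h0)
      nlinarith

theorem perp_inj (T : K →L[ℂ] H) :
    Function.Injective (T ∘L (LinearMap.ker (T : K →ₗ[ℂ] H))ᗮ.subtypeL) := by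
  rw [injective_iff_map_eq_zero]
  intro v hv
  have h1 : (v : K) ∈ LinearMap.ker (T : K →ₗ[ℂ] H) := hv
  have h2 : inner ℂ (v : K) (v : K) = 0 := v.2 _ h1
  exact Subtype.ext (inner_self_eq_zero.1 h2)

theorem perp_adj (T : K →L[ℂ] H) (x : H) :
    ‖adjoint (T ∘L (LinearMap.ker (T : K →ₗ[ℂ] H))ᗮ.subtypeL) x‖ = ‖adjoint T x‖ := by
  have hm : adjoint T x ∈ (LinearMap.ker (T : K →ₗ[ℂ] H))ᗮ := by
    intro u hu
    have hu' : T u = 0 := hu
    rw [adjoint_inner_right, hu', inner_zero_left]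
  have h : adjoint (T ∘L (LinearMap.ker (T : K →ₗ[ℂ] H))ᗮ.subtypeL) x = ⟨adjoint T x, hm⟩ := by
    refine ext_inner_left ℂ fun w => ?_
    rw [adjoint_inner_right]
    show inner ℂ (T (w : K)) x = inner ℂ (w : K) (adjoint T x)
    rw [adjoint_inner_right]
  rw [h]
  rfl

/-- The conclusion of Kadison's similarity problem for the algebra `A`. -/
def Sim (A : Type) [CStarAlgebra A] : Prop :=
  ∀ (L : Type) [NormedAddCommGroup L] [InnerProductSpace ℂ L] [CompleteSpace L]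
    (u : A →ₐ[ℂ] (L →L[ℂ] L)) (c : ℝ), 1 ≤ c → (∀ x : A, ‖u x‖ ≤ c * ‖x‖) →
    ∃ ξ : (L →L[ℂ] L)ˣ,
      ‖(ξ : L →L[ℂ] L)‖ ^ 2 ≤ 864 * (2 * c) ^ 29 ∧
      ‖((ξ⁻¹ : (L →L[ℂ] L)ˣ) : L →L[ℂ] L)‖ ^ 2 ≤ 864 * (2 * c) ^ 29 ∧
      ∀ x : A, (ξ : L →L[ℂ] L) * u (star x) * ((ξ⁻¹ : (L →L[ℂ] L)ˣ) : L →L[ℂ] L)
        = star ((ξ : L →L[ℂ] L) * u x * ((ξ⁻¹ : (L →L[ℂ] L)ˣ) : L →L[ℂ] L))

/-- Invariance is automatically uniform. -/
theorem uniform (π : A →ₐ[ℂ] (H →L[ℂ] H)) (b : ℝ) (hb : ∀ a, ‖π a‖ ≤ b * ‖a‖)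
    (T : K →L[ℂ] H) (hinv : ∀ (a : A) (x : K), ∃ y : K, π a (T x) = T y) :
    ∃ c : ℝ, 1 ≤ c ∧ ∀ (a : A) (x : K), ∃ y : K, π a (T x) = T y ∧ ‖y‖ ≤ c * ‖a‖ * ‖x‖ := by
  obtain ⟨u, hu, c, hc, huc⟩ := exists_hom π b hb
    (T ∘L (LinearMap.ker (T : K →ₗ[ℂ] H))ᗮ.subtypeL) (perp_inj T) (by
      intro a x
      obtain ⟨y, hy⟩ := hinv a x
      obtain ⟨v, hv, -⟩ := perp T y
      exact ⟨v, hy.trans hv.symm⟩)
  refine ⟨c, hc, fun a x => ?_⟩
  obtain ⟨v, hv, hvn⟩ := perp T x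
  refine ⟨(u a v : (LinearMap.ker (T : K →ₗ[ℂ] H))ᗮ), ?_, ?_⟩
  · rw [← hv]
    exact (hu a v).symm
  · have h1 : ‖u a v‖ ≤ ‖u a‖ * ‖v‖ := (u a).le_opNorm v
    have h2 : ‖u a‖ * ‖v‖ ≤ (c * ‖a‖) * ‖x‖ :=
      mul_le_mul (huc a) hvn (norm_nonneg _) (mul_nonneg (by linarith) (norm_nonneg _))
    exact h1.trans h2

/-- Positive operators in the commutant, with bounds. -/
theorem positive (sim : Sim A) (π : A →ₐ[ℂ] (H →L[ℂ] H)) (hs : ∀ a, π (star a) = star (π a))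
    (b : ℝ) (hb : ∀ a, ‖π a‖ ≤ b * ‖a‖) (T : K →L[ℂ] H) (c : ℝ) (hc : 1 ≤ c)
    (hinv : ∀ (a : A) (x : K), ∃ y : K, π a (T x) = T y ∧ ‖y‖ ≤ c * ‖a‖ * ‖x‖) :
    ∃ S : H →L[ℂ] H, S.IsPositive ∧ (∀ a, π a * S = S * π a) ∧
      (∀ z : H, (∃ w, S w = z) ↔ ∃ w, T w = z) ∧
      (∀ x, ‖S x‖ ^ 2 ≤ 864 * (2 * c) ^ 29 * ‖adjoint T x‖ ^ 2) ∧
      ∀ x, ‖adjoint T x‖ ^ 2 ≤ 864 * (2 * c) ^ 29 * ‖S x‖ ^ 2 := by
  obtain ⟨u, hu, -⟩ := exists_hom π b hb
    (T ∘L (LinearMap.ker (T : K →ₗ[ℂ] H))ᗮ.subtypeL) (perp_inj T) (by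
      intro a x
      obtain ⟨y, hy, -⟩ := hinv a x
      obtain ⟨v, hv, -⟩ := perp T y
      exact ⟨v, hy.trans hv.symm⟩)
  have huc : ∀ a, ‖u a‖ ≤ c * ‖a‖ := by
    intro a
    refine ContinuousLinearMap.opNorm_le_bound _ (mul_nonneg (by linarith) (norm_nonneg _))
      fun x => ?_
    obtain ⟨y, hy, hyn⟩ := hinv a x
    obtain ⟨v, hv, hvn⟩ := perp T y
    have h1 : u a x = v := perp_inj T ((hu a x).trans (hy.trans hv.symm))
    rw [h1]
    exact hvn.trans hyn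
  obtain ⟨ξ, h1, h2, h3⟩ := sim (LinearMap.ker (T : K →ₗ[ℂ] H))ᗮ u c hc huc
  obtain ⟨S, hS1, hS2, hS3, hS4, hS5⟩ := of_similar π hs _ u hu ξ h3 _ h1 h2
  refine ⟨S, hS1, hS2, fun z => (hS3 z).trans ⟨?_, ?_⟩, fun x => ?_, fun x => ?_⟩
  · rintro ⟨w, hw⟩
    exact ⟨w, hw⟩
  · rintro ⟨w, hw⟩
    obtain ⟨v, hv, -⟩ := perp T w
    exact ⟨v, hv.trans hw⟩
  · rw [← perp_adj]
    exact hS4 x
  · rw [← perp_adj]
    exact hS5 x

/-- The case of an arbitrary bounded homomorphism. -/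
theorem general (sim : Sim A) (u : A →ₐ[ℂ] (H →L[ℂ] H)) (b : ℝ) (hb1 : 1 ≤ b)
    (hb : ∀ a, ‖u a‖ ≤ b * ‖a‖) (T : K →L[ℂ] H)
    (hinv : ∀ (a : A) (x : K), ∃ y : K, u a (T x) = T y) :
    ∃ S : H →L[ℂ] H, (∀ a, u a * S = S * u a) ∧ ∀ z : H, (∃ w, S w = z) ↔ ∃ w, T w = z := by
  obtain ⟨ξ, -, -, h3⟩ := sim H u b hb1 hb
  set X : H →L[ℂ] H := (ξ : H →L[ℂ] H) with hX
  set Y : H →L[ℂ] H := ((ξ⁻¹ : (H →L[ℂ] H)ˣ) : H →L[ℂ] H) with hY
  have hXY : X * Y = 1 := ξ.mul_inv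
  have hYX : Y * X = 1 := ξ.inv_mul
  have hXY' : ∀ x, X (Y x) = x := fun x => DFunLike.congr_fun hXY x
  have hYX' : ∀ x, Y (X x) = x := fun x => DFunLike.congr_fun hYX x
  let π : A →ₐ[ℂ] (H →L[ℂ] H) := AlgHom.ofLinearMap
    { toFun := fun a => X * u a * Y
      map_add' := fun p q => by rw [map_add, mul_add, add_mul]
      map_smul' := fun r q => by
        rw [map_smul, RingHom.id_apply, mul_smul_comm, smul_mul_assoc] }
    (by
      show X * u 1 * Y = 1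
      rw [map_one, mul_one, hXY])
    (fun p q => by
      show X * u (p * q) * Y = (X * u p * Y) * (X * u q * Y)
      have : (X * u p * Y) * (X * u q * Y) = X * u p * (Y * X) * u q * Y := by
        simp only [mul_assoc]
      rw [this, hYX, mul_one, map_mul]
      simp only [mul_assoc])
  have hπ : ∀ a, π a = X * u a * Y := fun a => rfl
  have hπb : ∀ a, ‖π a‖ ≤ (‖X‖ * b * ‖Y‖) * ‖a‖ := by
    intro a
    rw [hπ]
    calc ‖X * u a * Y‖ ≤ ‖X * u a‖ * ‖Y‖ := norm_mul_le _ _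
      _ ≤ (‖X‖ * ‖u a‖) * ‖Y‖ := mul_le_mul_of_nonneg_right (norm_mul_le _ _) (norm_nonneg _)
      _ ≤ (‖X‖ * (b * ‖a‖)) * ‖Y‖ := mul_le_mul_of_nonneg_right
          (mul_le_mul_of_nonneg_left (hb a) (norm_nonneg _)) (norm_nonneg _)
      _ = (‖X‖ * b * ‖Y‖) * ‖a‖ := by ring
  have hi : ∀ (a : A) (x : K), ∃ y : K, π a ((X ∘L T) x) = (X ∘L T) y := by
    intro a x
    obtain ⟨y, hy⟩ := hinv a x
    refine ⟨y, ?_⟩
    show X (u a (Y (X (T x)))) = X (T y)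
    rw [hYX', hy]
  obtain ⟨c, hc, hi'⟩ := uniform π _ hπb (X ∘L T) hi
  obtain ⟨S', -, hS2, hS3, -⟩ := positive sim π h3 _ hπb (X ∘L T) c hc hi'
  refine ⟨Y * S' * X, fun a => ?_, fun z => ?_⟩
  · have e1 := hS2 a
    rw [hπ] at e1
    have e2 : Y * (X * u a * Y * S') * X = u a * (Y * S' * X) := by
      have : Y * (X * u a * Y * S') * X = (Y * X) * u a * Y * S' * X := by
        simp only [mul_assoc]
      rw [this, hYX, one_mul]
      simp only [mul_assoc]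
    have e3 : Y * (S' * (X * u a * Y)) * X = Y * S' * X * u a := by
      have : Y * (S' * (X * u a * Y)) * X = Y * S' * X * u a * (Y * X) := by
        simp only [mul_assoc]
      rw [this, hYX, mul_one]
    rw [← e2, e1, e3]
  · constructor
    · rintro ⟨w, rfl⟩
      obtain ⟨v, hv⟩ := (hS3 (S' (X w))).1 ⟨X w, rfl⟩
      refine ⟨v, ?_⟩
      have hv' : X (T v) = S' (X w) := hv
      show T v = Y (S' (X w))
      rw [← hv', hYX']
    · rintro ⟨w, rfl⟩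
      obtain ⟨v, hv⟩ := (hS3 (X (T w))).2 ⟨w, rfl⟩
      refine ⟨Y v, ?_⟩
      show Y (S' (X (Y v))) = T w
      rw [hXY', hv, hYX']

end

end Pool.Agent.TH253.KR
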